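import Pool.Agent.W172.MK.Stm

set_option autoImplicit false

/-! Project MK, E3: measurability of the process. -/

open MeasureTheory ProbabilityTheory Filter Topology

namespace Pool.Agent.W346.MK

open Pool.Agent.W172.MK

variable {S : Type} [mS : MeasurableSpace S]

lemma XX_meas {F : S × S → unitInterval → S} (hF : Measurable (Function.uncurry F))
    (𝒢 : MeasurableSpace (Om S)) (i : ℤ) (h1 : Measurable[𝒢] (fun ω : Om S => ω (i / 2)))
    (h2 : i % 2 = 0 ∨ Measurable[𝒢] (fun ω : Om S => ω (i / 2 + 1))) :
    Measurable[𝒢] (XX F i) := by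
  by_cases h : i % 2 = 0
  · have e : XX F i = fun ω : Om S => (ω (i / 2)).1 := by
      funext ω
      simp only [XX, if_pos h]
    rw [e]
    exact measurable_fst.comp h1
  · have h2' := h2.resolve_left h
    have e : XX F i = fun ω : Om S =>
        Function.uncurry F (((ω (i / 2)).1, (ω (i / 2 + 1)).1), (ω (i / 2 + 1)).2) := by
      funext ω
      simp only [XX, if_neg h, Function.uncurry_apply_pair]
    rw [e]
    exact hF.comp (((measurable_fst.comp h1).prodMk (measurable_fst.comp h2')).prodMk
      (measurable_snd.comp h2'))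

lemma coord_base (a m : ℤ) (h : m ≤ a) : Measurable[base S a] (fun ω : Om S => ω m) := by
  have h1 : MeasurableSpace.comap (fun ω : Om S => ω m) inferInstance ≤ base S a :=
    le_iSup₂_of_le m h le_rfl
  exact (comap_measurable _).mono h1 le_rfl

theorem xm : P_XM := by
  intro S _ F hF
  have h1 : ∀ i, Measurable (XX F i) := fun i =>
    XX_meas hF _ i (measurable_pi_apply _) (Or.inr (measurable_pi_apply _))
  have h3 : ∀ a m : ℤ, m ≤ 2 * a → MeasurableSpace.comap (XX F m) inferInstance ≤ base S a := by
    intro a m hm
    refine Measurable.comap_le (XX_meas hF _ m (coord_base a _ (by omega)) ?_)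
    rcases Int.emod_two_eq_zero_or_one m with h | h
    · exact Or.inl h
    · exact Or.inr (coord_base a _ (by omega))
  refine ⟨h1, fun n => iSup₂_le fun m _ => (h1 m).comap_le, fun a => iSup₂_le fun m hm =>
    h3 a m hm, fun a => iSup₂_le fun m hm => ?_⟩
  rcases eq_or_lt_of_le hm with h | h
  · subst h
    exact le_sup_right
  · exact (h3 a m (by omega)).trans le_sup_left

end Pool.Agent.W346.MK
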